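import Pool.Agent.Helper45.AM.GoalsA
import Pool.Agent.Helper45.AM.GoalsB
import Pool.Agent.Helper45.AM.GoalsD
import Pool.Agent.Helper15.AM.GoalsG
import Pool.Agent.Helper15.RA.GoalsH

/-!
# Project AM (MP_cc6379_al): the filtration by the number of syllables (`D_1`).
-/

set_option autoImplicit false

open LaurentPolynomial Pool.Agent.Helper15.RA Pool.Agent.Helper45.AM Pool.Agent.Helper15.AM

noncomputable section

namespace Pool.Agent.Helper88.AM

section gen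

variable {W H : Type} [Ring H] [Algebra ℤ[T;T⁻¹] H] (b : Module.Basis W ℤ[T;T⁻¹] H) (s : W → ℕ)

/-- the elements supported in `s ≤ n` -/
def Sp (n : ℕ) : Submodule ℤ[T;T⁻¹] H where
  carrier := {Z | ∀ z, b.repr Z z ≠ 0 → s z ≤ n}
  add_mem' := by
    intro Y Z hY hZ z hz
    by_cases h : b.repr Y z = 0
    · refine hZ z fun h1 => hz ?_
      rw [map_add, Finsupp.add_apply, h, h1, add_zero]
    · exact hY z h
  zero_mem' := by
    intro z hz
    exact absurd (by rw [map_zero, Finsupp.zero_apply]) hz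
  smul_mem' := by
    intro p Z hZ z hz
    refine hZ z fun h1 => hz ?_
    rw [map_smul, Finsupp.smul_apply, h1, smul_zero]

variable {b s}

theorem mem_Sp {n : ℕ} {Z : H} : Z ∈ Sp b s n ↔ ∀ z, b.repr Z z ≠ 0 → s z ≤ n := Iff.rfl

theorem Sp_mono {m n : ℕ} (h : m ≤ n) : Sp b s m ≤ Sp b s n := fun _ hZ z hz => (hZ z hz).trans h

theorem b_mem {n : ℕ} {w : W} (h : s w ≤ n) : b w ∈ Sp b s n := by
  classical
  intro z hz
  rw [Module.Basis.repr_self, Finsupp.single_apply] at hz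
  split_ifs at hz with h1
  · rwa [← h1]
  · exact absurd rfl hz

/-- every element is the sum of its coordinates -/
theorem eq_sum (Z : H) : Z = ∑ w ∈ (b.repr Z).support, b.repr Z w • b w := by
  conv_lhs => rw [← b.linearCombination_repr Z, Finsupp.linearCombination_apply]
  rfl

/-- linear maps -/
theorem map_mem {n : ℕ} {Z : H} (F : H →ₗ[ℤ[T;T⁻¹]] H) (N : Submodule ℤ[T;T⁻¹] H) (hZ : Z ∈ Sp b s n)
    (h : ∀ w, s w ≤ n → F (b w) ∈ N) : F Z ∈ N := by
  rw [eq_sum (b := b) Z, map_sum]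
  refine Submodule.sum_mem _ fun w hw => ?_
  rw [map_smul]
  exact Submodule.smul_mem _ _ (h w (hZ w (Finsupp.mem_support_iff.1 hw)))

/-- a submodule that contains the basis elements -/
theorem mem_of {n : ℕ} {Z : H} (N : Submodule ℤ[T;T⁻¹] H) (hZ : Z ∈ Sp b s n)
    (h : ∀ w, s w ≤ n → b w ∈ N) : Z ∈ N := map_mem LinearMap.id N hZ h

end gen

section main

variable {S W H : Type} [Group W] [Ring H] [Algebra ℤ[T;T⁻¹] H] (X : AC S W H)

/-- the elements with at most `n` syllables -/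
def Q (n : ℕ) : Submodule ℤ[T;T⁻¹] H := Sp X.D.t X.sl n

variable {X}

section
variable (hAS : A_S) (hB3 : B_3)
include hAS hB3

theorem t_one_b {b : Bool} {g w : W} (hg : g ∈ par X.cs (X.F b)) : X.D.t g * X.D.t w ∈ Q X (X.sl w + 1) := by
  obtain ⟨a1, -⟩ := hAS S W H X.toBase (X.F b)
  obtain ⟨-, -, -, -, -, b6, b7, -⟩ := hB3 S W H X
  intro z hz
  have h1 := a1 g hg w z hz
  have h2 := b7 (z * w⁻¹) w
  rw [inv_mul_cancel_right] at h2
  have h3 := b6 b _ h1
  omega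

theorem t_one_k {g w : W} (hg : g ∈ par X.cs X.K) : X.D.t g * X.D.t w ∈ Q X (X.sl w) := by
  obtain ⟨a1, -⟩ := hAS S W H X.toBase X.K
  obtain ⟨-, -, -, -, b5, -⟩ := hB3 S W H X
  intro z hz
  have h1 := a1 g hg w z hz
  have h2 := (b5 w _ h1).2
  rw [inv_mul_cancel_right] at h2
  exact h2.le

theorem t_b {b : Bool} {g : W} (hg : g ∈ par X.cs (X.F b)) {n : ℕ} {Z : H} (hZ : Z ∈ Q X n) :
    X.D.t g * Z ∈ Q X (n + 1) :=
  map_mem (LinearMap.mulLeft ℤ[T;T⁻¹] (X.D.t g)) _ hZ fun _ hw =>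
    Sp_mono (by omega) (t_one_b hAS hB3 hg)

end

section
variable (hPC : G_PC) (hB1 : B_1) (hB3 : B_3)
include hPC hB1 hB3

/-- the first syllable -/
theorem first {u : W} (hu : X.sl u ≠ 0) : ∃ b l u', u = l * u' ∧ l ∈ par X.cs (X.F b) ∧
    X.D.t u = X.D.t l * X.D.t u' ∧ X.sl u = X.sl u' + 1 := by
  obtain ⟨c1, -, -, -, -, -, -, c8, c9, -, c11, -⟩ := hB1 S W H X
  obtain ⟨b1, -, -, -, -, -, -, -, b9⟩ := hB3 S W H X
  obtain ⟨-, -, -, p4, -⟩ := hPC S W X.M X.cs X.K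
  obtain ⟨κ, hκ, y, hy, rfl⟩ := p4 u
  have hK : κ * y ∉ par X.cs X.K := fun h => hu ((b1 _).2 h)
  have hy1 : y ≠ 1 := fun h => hK (by rw [h, mul_one]; exact hκ)
  obtain ⟨b, hb⟩ := c9 y hy
  obtain ⟨a, u', rfl, h1, h2, h3, h4, -⟩ := c11 b y hb hy1
  have hl : κ * a ∈ par X.cs (X.F (!b)) := mul_mem (c1 _ hκ) h2
  have hl' : κ * a ∉ par X.cs X.K := fun h => h4 (c8 a (Or.inr h3) (by
    have := mul_mem (inv_mem hκ) h
    rwa [inv_mul_cancel_left] at this))
  refine ⟨!b, κ * a, u', (mul_assoc _ _ _).symm, hl, ?_, ?_⟩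
  · obtain ⟨-, -, -, -, p5, -⟩ := hPC S W X.M X.cs (X.F (!b))
    rw [X.D.mul _ _ (p5 u' h1 _ hl), mul_assoc]
  · rw [← mul_assoc]
    exact b9 _ _ _ h1 hl hl'

end

section
variable (hPC : G_PC) (hAS : A_S) (hB1 : B_1) (hB3 : B_3)
include hPC hAS hB1 hB3

theorem t_mul (n : ℕ) : ∀ u w, X.sl u = n → X.D.t u * X.D.t w ∈ Q X (n + X.sl w) := by
  induction n with
  | zero =>
    intro u w hu
    rw [zero_add]
    exact t_one_k hAS hB3 (((hB3 S W H X).1 u).1 hu)
  | succ n ih =>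
    intro u w hu
    obtain ⟨b, l, u', rfl, h1, h2, h3⟩ := first hPC hB1 hB3 (X := X) (u := u) (by omega)
    rw [h2, mul_assoc]
    exact Sp_mono (by omega) (t_b hAS hB3 h1 (ih u' w (by omega)))

theorem Q_mul {m n : ℕ} {Y Z : H} (hY : Y ∈ Q X m) (hZ : Z ∈ Q X n) : Y * Z ∈ Q X (m + n) := by
  refine map_mem (LinearMap.mulRight ℤ[T;T⁻¹] Z) _ hY fun u hu => ?_
  refine map_mem (LinearMap.mulLeft ℤ[T;T⁻¹] (X.D.t u)) _ hZ fun w hw => ?_
  exact Sp_mono (by omega) (t_mul hPC hAS hB1 hB3 _ u w rfl)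

theorem bar_mem (n : ℕ) : ∀ u, X.sl u = n → X.D.bar (X.D.t u) ∈ Q X n := by
  induction n with
  | zero =>
    intro u hu z hz
    obtain ⟨-, -, a3, -⟩ := hAS S W H X.toBase X.K
    exact (((hB3 S W H X).1 z).2 (a3 u (((hB3 S W H X).1 u).1 hu) z hz)).le
  | succ n ih =>
    intro u hu
    obtain ⟨b, l, u', rfl, h1, h2, h3⟩ := first hPC hB1 hB3 (X := X) (u := u) (by omega)
    rw [h2, map_mul]
    obtain ⟨-, -, a3, -⟩ := hAS S W H X.toBase (X.F b)
    have hl : X.D.bar (X.D.t l) ∈ Q X 1 := fun z hz => (hB3 S W H X).2.2.2.2.2.1 b z (a3 l h1 z hz)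
    exact Sp_mono (by omega) (Q_mul hPC hAS hB1 hB3 hl (ih u' (by omega)))

variable (hH2 : H_2)
include hH2

theorem c_mem (w : W) : X.D.c w ∈ Q X (X.sl w) := by
  classical
  obtain ⟨k1, k2, k3, k4, k5, k6, -⟩ := hH2 S W H X.M X.cs X.L X.wt X.D
  by_contra hn
  -- the bad elements
  have hne : ((X.D.t.repr (X.D.c w)).support.filter fun y => X.sl w < X.sl y).Nonempty := by
    by_contra h0
    rw [Finset.not_nonempty_iff_eq_empty] at h0
    refine hn fun z hz => ?_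
    by_contra h1
    have : z ∈ (X.D.t.repr (X.D.c w)).support.filter fun y => X.sl w < X.sl y :=
      Finset.mem_filter.2 ⟨Finsupp.mem_support_iff.2 hz, by omega⟩
    rw [h0] at this
    simp at this
  obtain ⟨y, hy, hmax⟩ := Finset.exists_max_image _ X.cs.length hne
  rw [Finset.mem_filter, Finsupp.mem_support_iff] at hy
  obtain ⟨hy0, hy1⟩ := hy
  apply hy0
  refine eq_zero_of_invert (k6 w y fun h => by rw [h] at hy1; omega) ?_
  have e : X.D.t.repr (X.D.c w) y = X.D.t.repr (X.D.bar (X.D.c w)) y := by rw [X.D.bar_c]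
  rw [e]
  conv_rhs => rw [eq_sum (b := X.D.t) (X.D.c w)]
  rw [map_sum, map_sum, Finsupp.finsetSum_apply, Finset.sum_eq_single y]
  · rw [k1, map_smul, Finsupp.smul_apply, k2, smul_eq_mul, mul_one, ← e]
  · intro u hu huy
    rw [k1, map_smul, Finsupp.smul_apply]
    have : X.D.t.repr (X.D.bar (X.D.t u)) y = 0 := by
      by_contra h1
      have h2 := bar_mem hPC hAS hB1 hB3 _ u rfl y h1
      have h3 := hmax u (Finset.mem_filter.2 ⟨hu, by omega⟩)
      rcases k3 u y h1 with h4 | h4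
      · exact huy h4.symm
      · omega
    rw [this, smul_zero]
  · intro h
    exact absurd (Finsupp.mem_support_iff.2 hy0) h

theorem t_mem_b (n : ℕ) : ∀ w, X.cs.length w = n → X.D.t w ∈ Sp X.b X.sl (X.sl w) := by
  classical
  obtain ⟨k1, k2, k3, k4, k5, k6, -⟩ := hH2 S W H X.M X.cs X.L X.wt X.D
  induction n using Nat.strong_induction_on with
  | _ n ih =>
    intro w hw
    have e := eq_sum (b := X.D.t) (X.D.c w)
    rw [← Finset.add_sum_erase _ _ (Finsupp.mem_support_iff.2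
      (show X.D.t.repr (X.D.c w) w ≠ 0 by rw [k4]; exact one_ne_zero)), k4, one_smul] at e
    rw [eq_sub_iff_add_eq.2 e.symm]
    refine Submodule.sub_mem _ ?_ (Submodule.sum_mem _ fun y hy => ?_)
    · rw [← X.hb]
      exact b_mem le_rfl
    · rw [Finset.mem_erase, Finsupp.mem_support_iff] at hy
      refine Submodule.smul_mem _ _ ?_
      rcases k5 w y hy.2 with h | h
      · exact absurd h hy.1
      · exact Sp_mono (c_mem hPC hAS hB1 hB3 hH2 w y hy.2) (ih _ (by omega) y rfl)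

end

end main

/-- **AM-D1** -/
theorem h_d_1 (hPC : G_PC) (hH2 : H_2) (hAS : A_S) (hB1 : B_1) (hB3 : B_3) : D_1 := by
  intro S W H _ _ _ X
  refine ⟨fun u w => t_mul hPC hAS hB1 hB3 _ u w rfl, fun u => bar_mem hPC hAS hB1 hB3 _ u rfl,
    fun w => c_mem hPC hAS hB1 hB3 hH2 w, ?_, ?_⟩
  · intro n Z
    constructor
    · intro h
      exact mem_of (b := X.D.t) (s := X.sl) (Sp X.b X.sl n) h fun w hw =>
        Sp_mono hw (t_mem_b hPC hAS hB1 hB3 hH2 _ w rfl)
    · intro h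
      refine mem_of (b := X.b) (s := X.sl) (Sp X.D.t X.sl n) h fun w hw => ?_
      rw [X.hb]
      exact Sp_mono hw (c_mem hPC hAS hB1 hB3 hH2 w)
  · intro x g y hA
    have hx : X.D.t x ∈ Q X (X.sl x) := b_mem le_rfl
    have hy : X.D.t y ∈ Q X (X.sl y) := b_mem le_rfl
    have h := Q_mul hPC hAS hB1 hB3 (Q_mul hPC hAS hB1 hB3 hx (c_mem hPC hAS hB1 hB3 hH2 g)) hy
    refine Sp_mono ?_ h
    unfold AC.nn
    obtain ⟨b1, -, -, -, -, b6, -⟩ := hB3 S W H X
    split_ifs with hg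
    · rw [(b1 g).2 hg]
    · rcases hA with ⟨b, -, h1, -⟩ | ⟨-, h1, -⟩
      · have := b6 b g h1
        omega
      · exact absurd h1 hg

end Pool.Agent.Helper88.AM
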